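import Pool.Agent.Lib.MP_0a1ca9_gt.GpMain

open Metric Pool.Agent.Lib.MP_0a1ca9_gt

namespace Pool.Agent.Results.MP_0a1ca9_gt.AllOrders

/-- Let `1 < i ≤ n - 1` be real and `L` a star body. The intersection body of order `i` is
`x + r L` with `r > 0`, where `x = 0` or `L` is origin-symmetric, if and only if `L` is a centred
ball. -/
theorem result {E : Type*} [NormedAddCommGroup E] [InnerProductSpace ℝ E] [FiniteDimensional ℝ E]
    [MeasurableSpace E] [BorelSpace E] (i : ℝ) (hi : 1 < i)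
    (hi2 : i ≤ (Module.finrank ℝ E : ℝ) - 1) (L : Set E) (hL : IsStarBody L) :
    (∃ (x : E) (r : ℝ), 0 < r ∧ interBody i L = (fun a => x + r • a) '' L ∧ (x = 0 ∨ -L = L)) ↔
      ∃ R : ℝ, 0 ≤ R ∧ L = closedBall 0 R := by
  constructor
  · rintro ⟨x, r, hr, h, rfl | hs⟩
    · exact (Gp.main_full hi hi2 hL (Gp.neg_eq_of_dilate hr h)).1 ⟨0, r, hr, h⟩
    · exact (Gp.main_full hi hi2 hL hs).1 ⟨x, r, hr, h⟩
  · rintro ⟨R, hR, rfl⟩
    have hs : -closedBall (0 : E) R = closedBall 0 R := by simp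
    obtain ⟨x, r, hr, h⟩ := (Gp.main_full hi hi2 hL hs).2 ⟨R, hR, rfl⟩
    exact ⟨x, r, hr, h, Or.inr hs⟩

end Pool.Agent.Results.MP_0a1ca9_gt.AllOrders
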