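import Pool.Agent.Lib.MP_0a1ca9_gt.NbGeo

open Metric Pool.Agent.Lib.MP_0a1ca9_gt

namespace Pool.Agent.Results.MP_0a1ca9_gt.TranslatedNonBall

/-- Let `n ≥ 3` and `0 < i ≤ n - 1`. For every small vector `x ≠ 0` there is a star body `L` with
the origin in its interior that is not a ball and satisfies `I_i L = x + r L`, where the size of
`I_i L` is fixed by the value `1` of its radial function in the direction of `x`. -/
theorem result {E : Type*} [NormedAddCommGroup E] [InnerProductSpace ℝ E] [FiniteDimensional ℝ E]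
    [MeasurableSpace E] [BorelSpace E] (hE : 3 ≤ Module.finrank ℝ E) (i : ℝ) (hi : 0 < i)
    (hi2 : i ≤ (Module.finrank ℝ E : ℝ) - 1) :
    ∃ ε : ℝ, 0 < ε ∧ ∀ x : E, x ≠ 0 → ‖x‖ < ε → ∃ (L : Set E) (r : ℝ), IsStarBody L ∧
      (0 : E) ∈ interior L ∧ 0 < r ∧ interBody i L = (fun a => x + r • a) '' L ∧
      interRadial i L (‖x‖⁻¹ • x) = 1 ∧ ∀ (p : E) (R : ℝ), L ≠ closedBall p R :=
  Nb.exists_body hE hi fun _ hν => by
    obtain ⟨ε, h0, H⟩ := Nb.exists_profile hν hi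
      (by rw [mul_one_div]; exact div_le_one_of_le₀ hi2 (hi.le.trans hi2))
    refine ⟨ε, h0, fun ε' h1 h2 => ?_⟩
    obtain ⟨r, k1, k2, k3, k4, k5, k6⟩ := H ε' h1 h2
    exact ⟨r, Nb.sol_of_profile h1 k1 k2 k3 k4 k5 k6⟩

end Pool.Agent.Results.MP_0a1ca9_gt.TranslatedNonBall
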